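import Mathlib

/-!
Independence tools for product measures on `ι → β`, `β` countable: events depending on finitely many
coordinates, and on arbitrary sets of coordinates.
-/

set_option autoImplicit false
open MeasureTheory ProbabilityTheory
open scoped ENNReal NNReal BigOperators

namespace Pool.Agent.Q220.DP

variable {ι β : Type*}

/-- the set `A` of configurations only depends on the coordinates in `D` -/
def Dep (D : Set ι) (A : Set (ι → β)) : Prop :=
  ∀ ω ω' : ι → β, (∀ i ∈ D, ω i = ω' i) → ω ∈ A → ω' ∈ A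

theorem Dep.mono {D D' : Set ι} {A : Set (ι → β)} (h : Dep D A) (hD : D ⊆ D') : Dep D' A :=
  fun ω ω' hw hA => h ω ω' (fun i hi => hw i (hD hi)) hA

theorem Dep.compl {D : Set ι} {A : Set (ι → β)} (h : Dep D A) : Dep D Aᶜ :=
  fun ω ω' hw hA hA' => hA (h ω' ω (fun i hi => (hw i hi).symm) hA')

theorem Dep.inter {D : Set ι} {A B : Set (ι → β)} (h : Dep D A) (h' : Dep D B) : Dep D (A ∩ B) :=
  fun ω ω' hw hA => ⟨h ω ω' hw hA.1, h' ω ω' hw hA.2⟩

theorem Dep.union {D : Set ι} {A B : Set (ι → β)} (h : Dep D A) (h' : Dep D B) : Dep D (A ∪ B) :=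
  fun ω ω' hw hA => hA.imp (h ω ω' hw) (h' ω ω' hw)

theorem Dep.iUnion {κ : Sort*} {D : Set ι} {A : κ → Set (ι → β)} (h : ∀ b, Dep D (A b)) :
    Dep D (⋃ b, A b) := by
  intro ω ω' hw hA
  rw [Set.mem_iUnion] at hA ⊢
  obtain ⟨b, hb⟩ := hA
  exact ⟨b, h b ω ω' hw hb⟩

theorem Dep.iInter {κ : Sort*} {D : Set ι} {A : κ → Set (ι → β)} (h : ∀ b, Dep D (A b)) :
    Dep D (⋂ b, A b) := by
  intro ω ω' hw hA
  rw [Set.mem_iInter] at hA ⊢
  exact fun b => h b ω ω' hw (hA b)

theorem Dep.univ (D : Set ι) : Dep D (Set.univ : Set (ι → β)) := fun _ _ _ _ => trivial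

/-- the projection of an event -/
def proj (D : Finset ι) (A : Set (ι → β)) : Set (D → β) := {f | ∃ ω ∈ A, ∀ i : D, ω i = f i}

theorem Dep.eq_preimage {D : Finset ι} {A : Set (ι → β)} (h : Dep (D : Set ι) A) :
    A = (fun (ω : ι → β) (i : D) => ω i) ⁻¹' (proj D A) := by
  ext ω
  constructor
  · intro hω
    exact ⟨ω, hω, fun i => rfl⟩
  · rintro ⟨ω', hω', he⟩
    exact h ω' ω (fun i hi => he ⟨i, hi⟩) hω'

theorem Dep.measurable [Countable β] [MeasurableSpace β] [MeasurableSingletonClass β] {D : Set ι} (hD : D.Finite) {A : Set (ι → β)} (h : Dep D A) :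
    MeasurableSet A := by
  lift D to Finset ι using hD
  rw [h.eq_preimage]
  exact measurableSet_preimage (by fun_prop) (Set.to_countable _).measurableSet

section

variable [Countable β] [mβ : MeasurableSpace β] [MeasurableSingletonClass β] (m : ι → Measure β)
  [∀ i, IsProbabilityMeasure (m i)]

theorem Dep.indep {D1 D2 : Set ι} (h1 : D1.Finite) (h2 : D2.Finite) (hd : Disjoint D1 D2)
    {A B : Set (ι → β)} (hA : Dep D1 A) (hB : Dep D2 B) :
    Measure.infinitePi m (A ∩ B) = Measure.infinitePi m A * Measure.infinitePi m B := by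
  lift D1 to Finset ι using h1
  lift D2 to Finset ι using h2
  rw [Finset.disjoint_coe] at hd
  have hi : iIndepFun (fun (i : ι) (ω : ι → β) => ω i) (Measure.infinitePi m) :=
    iIndepFun_infinitePi (X := fun _ x => x) (by fun_prop)
  have h := hi.indepFun_finset D1 D2 hd (fun i => measurable_pi_apply i)
  rw [indepFun_iff_measure_inter_preimage_eq_mul] at h
  have := h (proj D1 A) (proj D2 B) (Set.to_countable _).measurableSet
    (Set.to_countable _).measurableSet
  rw [← hA.eq_preimage, ← hB.eq_preimage] at this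
  exact this

theorem Dep.prod {κ : Type*} (s : Finset κ) (D : κ → Set ι) (hD : ∀ b ∈ s, (D b).Finite)
    (hd : ∀ b ∈ s, ∀ b' ∈ s, b ≠ b' → Disjoint (D b) (D b'))
    (E : κ → Set (ι → β)) (hE : ∀ b ∈ s, Dep (D b) (E b)) :
    Measure.infinitePi m (⋂ b ∈ s, E b) = ∏ b ∈ s, Measure.infinitePi m (E b) := by
  classical
  induction s using Finset.induction_on with
  | empty => simp
  | insert b s hb ih =>
    rw [Finset.prod_insert hb, Finset.set_biInter_insert]
    have ih' := ih (fun c hc => hD c (Finset.mem_insert_of_mem hc))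
      (fun c hc c' hc' => hd c (Finset.mem_insert_of_mem hc) c' (Finset.mem_insert_of_mem hc'))
      (fun c hc => hE c (Finset.mem_insert_of_mem hc))
    rw [← ih']
    refine Dep.indep m (D1 := D b) (D2 := ⋃ c ∈ s, D c) (hD b (Finset.mem_insert_self _ _))
      (Set.Finite.biUnion s.finite_toSet fun c hc => hD c (Finset.mem_insert_of_mem hc)) ?_
      (hE b (Finset.mem_insert_self _ _)) ?_
    · rw [Set.disjoint_iUnion₂_right]
      intro c hc
      refine hd b (Finset.mem_insert_self _ _) c (Finset.mem_insert_of_mem hc) ?_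
      rintro rfl
      exact hb hc
    · refine Dep.iInter fun c => Dep.iInter fun hc => ?_
      exact (hE c (Finset.mem_insert_of_mem hc)).mono
        (Set.subset_biUnion_of_mem (u := D) hc)

theorem decouple {α : Type*} [Countable α] {D1 D2 : Set ι} (h1 : D1.Finite) (h2 : D2.Finite)
    (hd : Disjoint D1 D2) (X : (ι → β) → α) (hX : ∀ u, Dep D1 {ω | X ω = u})
    (R : α → Set (ι → β)) (hR : ∀ u, Dep D2 (R u)) :
    Measure.infinitePi m {ω | ω ∈ R (X ω)}
      = ∫⁻ ω, Measure.infinitePi m (R (X ω)) ∂(Measure.infinitePi m) := by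
  classical
  let _ : MeasurableSpace α := ⊤
  have hXm : Measurable X := by
    refine measurable_to_countable' fun u => ?_
    exact (hX u).measurable h1
  have e1 : {ω | ω ∈ R (X ω)} = ⋃ u, ({ω | X ω = u} ∩ R u) := by
    ext ω
    simp
  rw [e1, measure_iUnion]
  · have e2 : ∫⁻ ω, Measure.infinitePi m (R (X ω)) ∂(Measure.infinitePi m)
        = ∫⁻ u, Measure.infinitePi m (R u) ∂((Measure.infinitePi m).map X) := by
      rw [lintegral_map (measurable_from_top) hXm]
    rw [e2, lintegral_countable']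
    refine tsum_congr fun u => ?_
    rw [Measure.map_apply hXm (MeasurableSet.singleton u), mul_comm]
    exact Dep.indep m h1 h2 hd (hX u) (hR u)
  · intro u v huv
    rw [Function.onFun, Set.disjoint_left]
    rintro ω ⟨hu, _⟩ ⟨hv, _⟩
    exact huv (hu.symm.trans hv)
  · exact fun u => ((hX u).measurable h1).inter ((hR u).measurable h2)

/-- lower bound from decoupling -/
theorem decouple_ge {α : Type*} [Countable α] {D1 D2 : Set ι} (h1 : D1.Finite) (h2 : D2.Finite)
    (hd : Disjoint D1 D2) (X : (ι → β) → α) (hX : ∀ u, Dep D1 {ω | X ω = u})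
    (R : α → Set (ι → β)) (hR : ∀ u, Dep D2 (R u)) (G : Set α) (η : ℝ≥0∞)
    (hη : ∀ u ∈ G, η ≤ Measure.infinitePi m (R u)) :
    η * Measure.infinitePi m {ω | X ω ∈ G} ≤ Measure.infinitePi m {ω | X ω ∈ G ∧ ω ∈ R (X ω)} := by
  classical
  have hms : MeasurableSet {ω | X ω ∈ G} := by
    have : {ω | X ω ∈ G} = ⋃ u ∈ G, {ω | X ω = u} := by
      ext ω
      simp
    rw [this]
    exact MeasurableSet.biUnion (Set.to_countable _) fun u _ => (hX u).measurable h1
  have h := decouple m h1 h2 hd X hX (fun u => if u ∈ G then R u else ∅) (by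
    intro u
    split_ifs
    · exact hR u
    · intro _ _ _ h
      exact h.elim)
  have e1 : {ω | ω ∈ (fun u => if u ∈ G then R u else ∅) (X ω)} = {ω | X ω ∈ G ∧ ω ∈ R (X ω)} := by
    ext ω
    by_cases hG : X ω ∈ G <;> simp [hG]
  rw [e1] at h
  rw [h, ← setLIntegral_const]
  rw [← lintegral_indicator hms]
  refine lintegral_mono fun ω => ?_
  by_cases hG : X ω ∈ G
  · rw [Set.indicator_of_mem (by exact hG)]
    simp only [hG, if_true]
    exact hη _ hG
  · rw [Set.indicator_of_notMem (by exact hG)]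
    exact zero_le

open Classical in
theorem Dep.indep_meas {D1 D2 : Set ι} (hd : Disjoint D1 D2) {A B : Set (ι → β)} (hA : Dep D1 A)
    (hB : Dep D2 B) (mA : MeasurableSet A) (mB : MeasurableSet B)
    (hβ : Nonempty β) :
    Measure.infinitePi m (A ∩ B) = Measure.infinitePi m A * Measure.infinitePi m B := by
  have hi : iIndepFun (fun (i : ι) (ω : ι → β) => ω i) (Measure.infinitePi m) :=
    iIndepFun_infinitePi (X := fun _ x => x) (by fun_prop)
  have h1 := indep_iSup_of_disjoint (m := fun i => MeasurableSpace.comap (fun ω : ι → β => ω i) mβ)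
    (μ := Measure.infinitePi m) (fun i => (measurable_pi_apply i).comap_le) hi.iIndep hd
  have key : ∀ (D : Set ι) (A : Set (ι → β)), Dep D A → MeasurableSet A →
      MeasurableSet[⨆ i ∈ D, MeasurableSpace.comap (fun ω : ι → β => ω i) mβ] A := by
    intro D A hA mA
    obtain ⟨b₀⟩ := hβ
    have e : A = (fun (ω : ι → β) (i : ι) => if i ∈ D then ω i else b₀) ⁻¹' A := by
      ext ω
      constructor
      · intro h
        exact hA ω _ (fun i hi => by simp [hi]) h
      · intro h
        exact hA _ ω (fun i hi => by simp [hi]) h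
    rw [e]
    have hm : Measurable[⨆ i ∈ D, MeasurableSpace.comap (fun ω : ι → β => ω i) mβ]
        (fun (ω : ι → β) (i : ι) => if i ∈ D then ω i else b₀) := by
      refine @measurable_pi_lambda _ _ _ (_) _ _ fun i => ?_
      by_cases hi : i ∈ D
      · simp only [hi, if_true]
        have h2 : MeasurableSpace.comap (fun ω : ι → β => ω i) mβ
            ≤ ⨆ i ∈ D, MeasurableSpace.comap (fun ω : ι → β => ω i) mβ :=
          le_biSup (fun i => MeasurableSpace.comap (fun ω : ι → β => ω i) mβ) hi
        exact measurable_iff_comap_le.mpr h2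
      · simp only [hi, if_false]
        exact measurable_const
    exact hm mA
  rw [Indep_iff] at h1
  exact h1 A B (key D1 A hA mA) (key D2 B hB mB)

end

end Pool.Agent.Q220.DP
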